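import Pool.Agent.H26myc.Main

/-!
# The distinguishing index of the Mycielskian

For every connected graph `G` with at least three vertices `D'(μ(G)) ≤ D'(G)`; there are no
exceptions at all (twins are allowed).

Idea of the proof. Let `c` be a distinguishing edge colouring of `G`. Give every edge `v_i v_j`,
`u_i v_j` of `μ(G)` the colour `c(v_i v_j)` and all edges at `w` one fixed colour. An automorphism
of `μ(G)` cannot map `w` to a vertex `v_i` (count the common neighbours of `u_i` and `v_i`). If it
maps `w` to `u_i`, then `G` is a star with centre `v_i`, all of whose edges have the same colour, a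
contradiction. So a colour preserving automorphism fixes `w`, hence preserves `G` and is the
identity there; if it maps `u_x` to `u_y`, then `x` and `y` are twins with equally coloured
edges, so `x = y`.
-/

namespace Pool.Agent.Results.MP_da4765_co.MycielskianIndex

open Pool.Agent.H26myc

universe u

/-- For every finite connected graph `G` with at least three vertices, `G` and its Mycielskian
`μ(G)` have distinguishing edge colourings, and `D'(μ(G)) ≤ D'(G)`. -/
theorem result (V : Type u) [Fintype V] (G : SimpleGraph V) (hG : G.Connected)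
    (hV : 3 ≤ Fintype.card V) :
    (∃ (d : ℕ) (c : G.edgeSet → Fin d), IsDistinguishing c) ∧
      (∃ (d : ℕ) (c : (mycielskian G).edgeSet → Fin d), IsDistinguishing c) ∧
      distIndex (mycielskian G) ≤ distIndex G := by
  have hV' : 3 ≤ Nat.card V := by rwa [Nat.card_eq_fintype_card]
  have h1 := exists_distinguishing hV' hG
  have h2 : ∀ d : ℕ, (∃ c : G.edgeSet → Fin d, IsDistinguishing c) →
      ∃ c : (mycielskian G).edgeSet → Fin d, IsDistinguishing c := by
    rintro d ⟨c, hc⟩
    have : Nontrivial V := by
      rw [← Fintype.one_lt_card_iff_nontrivial]; omega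
    obtain ⟨a⟩ : Nonempty V := ⟨(exists_pair_ne V).choose⟩
    obtain ⟨b, hb⟩ := hG.preconnected.exists_adj_of_nontrivial a
    exact ⟨mcol (c ⟨s(a, b), hb⟩) c, mcol_distinguishing hV' hc _⟩
  refine ⟨h1, ?_, ?_⟩
  · obtain ⟨d, hd⟩ := h1
    exact ⟨d, h2 d hd⟩
  · have h3 : distIndex G ∈ {d : ℕ | ∃ c : G.edgeSet → Fin d, IsDistinguishing c} :=
      Nat.sInf_mem h1
    exact Nat.sInf_le (h2 _ h3)

end Pool.Agent.Results.MP_da4765_co.MycielskianIndex
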